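import Pool.Agent.H99.Trap.Defs2

/-!
# Project TRAP, module E: comparison of two paths
-/

set_option autoImplicit false

namespace Pool.Agent.H99.Trap

open MeasureTheory ProbabilityTheory Filter
open scoped ENNReal NNReal Topology

namespace E

/-- the integrand on the square -/
noncomputable def tr (F : ℝ → ℝ → ℝ) : ℝ × ℝ → ℝ := fun p => if p.2 ≤ p.1 then F p.1 p.2 else 0

theorem tr_integrable {t C : ℝ} (F : ℝ → ℝ → ℝ)
    (hF : Measurable (Function.uncurry F))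
    (hC : ∀ r s, 0 ≤ r → r ≤ s → s ≤ t → |F s r| ≤ C) :
    Integrable (tr F) ((volume.restrict (Set.Ioc 0 t)).prod (volume.restrict (Set.Ioc 0 t))) := by
  have hm : Measurable (tr F) := by
    refine Measurable.ite ?_ hF measurable_const
    exact measurableSet_le measurable_snd measurable_fst
  refine Integrable.of_bound (C := max C 0) hm.aestronglyMeasurable ?_
  rw [Measure.prod_restrict]
  refine (ae_restrict_iff' (measurableSet_Ioc.prod measurableSet_Ioc)).2 (Eventually.of_forall ?_)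
  rintro ⟨s, r⟩ hsr
  simp only [Set.mem_prod, Set.mem_Ioc] at hsr
  simp only [tr]
  split_ifs with h
  · exact (hC r s hsr.2.1.le h hsr.1.2).trans (le_max_left _ _)
  · simp

theorem inner1 {t s : ℝ} (hs : s ∈ Set.Ioc 0 t) (F : ℝ → ℝ → ℝ) :
    ∫ r in (0 : ℝ)..s, F s r = ∫ r in Set.Ioc 0 t, tr F (s, r) := by
  rw [intervalIntegral.integral_of_le hs.1.le]
  have h1 : ∀ r, tr F (s, r) = (Set.Iic s).indicator (fun r => F s r) r := by
    intro r
    simp only [tr, Set.indicator, Set.mem_Iic]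
  simp only [h1]
  rw [setIntegral_indicator measurableSet_Iic]
  congr 2
  ext r
  simp only [Set.mem_Ioc, Set.mem_inter_iff, Set.mem_Iic]
  constructor
  · rintro ⟨h2, h3⟩
    exact ⟨⟨h2, h3.trans hs.2⟩, h3⟩
  · rintro ⟨⟨h2, _⟩, h3⟩
    exact ⟨h2, h3⟩

theorem inner2 {t r : ℝ} (hr : r ∈ Set.Ioc 0 t) (F : ℝ → ℝ → ℝ) :
    ∫ s in r..t, F s r = ∫ s in Set.Ioc 0 t, tr F (s, r) := by
  rw [intervalIntegral.integral_of_le hr.2, ← integral_Icc_eq_integral_Ioc]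
  have h1 : ∀ s, tr F (s, r) = (Set.Ici r).indicator (fun s => F s r) s := by
    intro s
    simp only [tr, Set.indicator, Set.mem_Ici]
  simp only [h1]
  rw [setIntegral_indicator measurableSet_Ici]
  congr 2
  ext s
  simp only [Set.mem_Ioc, Set.mem_inter_iff, Set.mem_Ici, Set.mem_Icc]
  constructor
  · rintro ⟨h2, h3⟩
    exact ⟨⟨hr.1.trans_le h2, h3⟩, h2⟩
  · rintro ⟨⟨_, h3⟩, h2⟩
    exact ⟨h2, h3⟩

/-- Fubini on the triangle -/
theorem tri {t C : ℝ} (ht : 0 < t) (F : ℝ → ℝ → ℝ)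
    (hF : Measurable (Function.uncurry F))
    (hC : ∀ r s, 0 ≤ r → r ≤ s → s ≤ t → |F s r| ≤ C) :
    ∫ s in (0 : ℝ)..t, ∫ r in (0 : ℝ)..s, F s r = ∫ r in (0 : ℝ)..t, ∫ s in r..t, F s r := by
  rw [intervalIntegral.integral_of_le ht.le, intervalIntegral.integral_of_le ht.le]
  rw [setIntegral_congr_fun measurableSet_Ioc (fun s hs => inner1 hs F),
    setIntegral_congr_fun measurableSet_Ioc (fun r hr => inner2 hr F)]
  exact integral_integral_swap (tr_integrable F hF hC)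

theorem tri_int {t C : ℝ} (ht : 0 < t) (F : ℝ → ℝ → ℝ)
    (hF : Measurable (Function.uncurry F))
    (hC : ∀ r s, 0 ≤ r → r ≤ s → s ≤ t → |F s r| ≤ C) :
    IntervalIntegrable (fun s => ∫ r in (0 : ℝ)..s, F s r) volume 0 t := by
  rw [intervalIntegrable_iff_integrableOn_Ioc_of_le ht.le]
  have h := (tr_integrable F hF hC).integral_prod_left
  refine Integrable.congr h ?_
  refine (ae_restrict_iff' measurableSet_Ioc).2 (Eventually.of_forall fun s hs => ?_)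
  exact (inner1 hs F).symm

theorem intInt_of_bdd {a b C : ℝ} (hab : a ≤ b) (f : ℝ → ℝ) (hf : Measurable f)
    (hC : ∀ s ∈ Set.Icc a b, |f s| ≤ C) : IntervalIntegrable f volume a b := by
  rw [intervalIntegrable_iff_integrableOn_Ioc_of_le hab]
  refine Integrable.of_bound (C := C) hf.aestronglyMeasurable ?_
  exact (ae_restrict_iff' measurableSet_Ioc).2
    (Eventually.of_forall fun s hs => hC s (Set.Ioc_subset_Icc_self hs))

/-- forward Volterra equation against `w` -/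
theorem fwd {t Cw Cv γ : ℝ} (ht : 0 < t) (K : ℝ → ℝ → ℝ) (v w : ℝ → ℝ)
    (hv : Measurable v) (hw : Measurable w)
    (hvb : ∀ s ∈ Set.Icc 0 t, |v s| ≤ Cv) (hwb : ∀ s ∈ Set.Icc 0 t, |w s| ≤ Cw)
    (hV : ∀ s ∈ Set.Icc 0 t, v s = 1 - γ * ∫ r in (0 : ℝ)..s, K s r * v r) :
    ∫ s in (0 : ℝ)..t, w s = (∫ s in (0 : ℝ)..t, w s * v s) +
      γ * ∫ s in (0 : ℝ)..t, ∫ r in (0 : ℝ)..s, K s r * w s * v r := by
  have h1 : ∀ s ∈ Set.uIcc 0 t, γ * ∫ r in (0 : ℝ)..s, K s r * w s * v r = w s - w s * v s := by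
    intro s hs
    rw [Set.uIcc_of_le ht.le] at hs
    have e : ∀ r, K s r * w s * v r = w s * (K s r * v r) := fun r => by ring
    simp only [e]
    rw [intervalIntegral.integral_const_mul]
    have := hV s hs
    linear_combination (w s) * this
  rw [← intervalIntegral.integral_const_mul, intervalIntegral.integral_congr h1,
    intervalIntegral.integral_sub]
  · ring
  · exact intInt_of_bdd ht.le w hw hwb
  · refine intInt_of_bdd ht.le (fun s => w s * v s) (hw.mul hv) (C := Cw * Cv) fun s hs => ?_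
    rw [abs_mul]
    exact mul_le_mul (hwb s hs) (hvb s hs) (abs_nonneg _) ((abs_nonneg _).trans (hwb s hs))

/-- backward Volterra equation against `v` -/
theorem bwd {t Cw Cv CK γ : ℝ} (ht : 0 < t) (K : ℝ → ℝ → ℝ) (v w : ℝ → ℝ)
    (hK : Measurable (Function.uncurry K))
    (hKb : ∀ r s, 0 ≤ r → r ≤ s → s ≤ t → |K s r| ≤ CK)
    (hv : Measurable v) (hw : Measurable w)
    (hvb : ∀ s ∈ Set.Icc 0 t, |v s| ≤ Cv) (hwb : ∀ s ∈ Set.Icc 0 t, |w s| ≤ Cw)
    (hW : ∀ r ∈ Set.Icc 0 t, w r = 1 - γ * ∫ s in r..t, K s r * w s) :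
    ∫ s in (0 : ℝ)..t, v s = (∫ s in (0 : ℝ)..t, w s * v s) +
      γ * ∫ s in (0 : ℝ)..t, ∫ r in (0 : ℝ)..s, K s r * w s * v r := by
  have hm : Measurable (Function.uncurry fun s r => K s r * w s * v r) :=
    (hK.mul (hw.comp measurable_fst)).mul (hv.comp measurable_snd)
  have hb : ∀ r s, 0 ≤ r → r ≤ s → s ≤ t → |K s r * w s * v r| ≤ CK * Cw * Cv := by
    intro r s hr hrs hst
    have h1 := hKb r s hr hrs hst
    have h2 := hwb s ⟨hr.trans hrs, hst⟩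
    have h3 := hvb r ⟨hr, hrs.trans hst⟩
    rw [abs_mul, abs_mul]
    exact mul_le_mul (mul_le_mul h1 h2 (abs_nonneg _) ((abs_nonneg _).trans h1)) h3 (abs_nonneg _)
      (mul_nonneg ((abs_nonneg _).trans h1) ((abs_nonneg _).trans h2))
  rw [tri ht _ hm hb]
  have h1 : ∀ r ∈ Set.uIcc 0 t, γ * ∫ s in r..t, K s r * w s * v r = v r - w r * v r := by
    intro r hr
    rw [Set.uIcc_of_le ht.le] at hr
    rw [intervalIntegral.integral_mul_const]
    have := hW r hr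
    linear_combination (v r) * this
  rw [← intervalIntegral.integral_const_mul, intervalIntegral.integral_congr h1,
    intervalIntegral.integral_sub]
  · ring
  · exact intInt_of_bdd ht.le v hv hvb
  · refine intInt_of_bdd ht.le (fun s => w s * v s) (hw.mul hv) (C := Cw * Cv) fun s hs => ?_
    rw [abs_mul]
    exact mul_le_mul (hwb s hs) (hvb s hs) (abs_nonneg _) ((abs_nonneg _).trans (hwb s hs))

/-- abstract comparison -/
theorem core {t b γ : ℝ} (ht : 0 < t) (hγ : 0 < γ) (hb : 0 ≤ b) (K K' : ℝ → ℝ → ℝ)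
    (v v' w : ℝ → ℝ) (hK : Measurable (Function.uncurry K)) (hK' : Measurable (Function.uncurry K'))
    (hK0 : ∀ r s, 0 ≤ r → r ≤ s → s ≤ t → 0 ≤ K s r)
    (hK1 : ∀ r s, 0 ≤ r → r ≤ s → s ≤ t → K' s r ≤ 1)
    (hKK : ∀ r s, 0 ≤ r → r ≤ s → s ≤ t → K s r ≤ K' s r)
    (hv : Measurable v) (hv' : Measurable v') (hw : Measurable w)
    (hv1 : ∀ s ∈ Set.Icc 0 t, b ≤ v s ∧ v s ≤ 1) (hv1' : ∀ s ∈ Set.Icc 0 t, b ≤ v' s ∧ v' s ≤ 1)
    (hw1 : ∀ s ∈ Set.Icc 0 t, b ≤ w s ∧ w s ≤ 1)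
    (hV : ∀ s ∈ Set.Icc 0 t, v s = 1 - γ * ∫ r in (0 : ℝ)..s, K s r * v r)
    (hV' : ∀ s ∈ Set.Icc 0 t, v' s = 1 - γ * ∫ r in (0 : ℝ)..s, K' s r * v' r)
    (hW : ∀ r ∈ Set.Icc 0 t, w r = 1 - γ * ∫ s in r..t, K s r * w s) :
    γ * b ^ 2 * (∫ s in (0 : ℝ)..t, ∫ r in (0 : ℝ)..s, (K' s r - K s r)) ≤
      (∫ s in (0 : ℝ)..t, v s) - ∫ s in (0 : ℝ)..t, v' s := by
  have abs1 : ∀ {f : ℝ → ℝ}, (∀ s ∈ Set.Icc 0 t, b ≤ f s ∧ f s ≤ 1) →
      ∀ s ∈ Set.Icc 0 t, |f s| ≤ 1 := by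
    intro f hf s hs
    obtain ⟨h1, h2⟩ := hf s hs
    rw [abs_of_nonneg (hb.trans h1)]
    exact h2
  have hKb : ∀ r s, 0 ≤ r → r ≤ s → s ≤ t → |K s r| ≤ 1 := by
    intro r s h1 h2 h3
    rw [abs_of_nonneg (hK0 r s h1 h2 h3)]
    exact (hKK r s h1 h2 h3).trans (hK1 r s h1 h2 h3)
  have hKb' : ∀ r s, 0 ≤ r → r ≤ s → s ≤ t → |K' s r| ≤ 1 := by
    intro r s h1 h2 h3
    rw [abs_of_nonneg ((hK0 r s h1 h2 h3).trans (hKK r s h1 h2 h3))]
    exact hK1 r s h1 h2 h3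
  have f1 := fwd (γ := γ) ht K v w hv hw (abs1 hv1) (abs1 hw1) hV
  have f2 := fwd (γ := γ) ht K' v' w hv' hw (abs1 hv1') (abs1 hw1) hV'
  have b1 := bwd (γ := γ) ht K v w hK hKb hv hw (abs1 hv1) (abs1 hw1) hW
  have b2 := bwd (γ := γ) ht K v' w hK hKb hv' hw (abs1 hv1') (abs1 hw1) hW
  have hprod : ∀ (L : ℝ → ℝ → ℝ), (∀ r s, 0 ≤ r → r ≤ s → s ≤ t → |L s r| ≤ 1) →
      ∀ r s, 0 ≤ r → r ≤ s → s ≤ t → |L s r * w s * v' r| ≤ 1 := by
    intro L hL r s hr hrs hst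
    have h1 := hL r s hr hrs hst
    have h2 := abs1 hw1 s ⟨hr.trans hrs, hst⟩
    have h3 := abs1 hv1' r ⟨hr, hrs.trans hst⟩
    rw [abs_mul, abs_mul]
    calc |L s r| * |w s| * |v' r| ≤ 1 * 1 * 1 :=
          mul_le_mul (mul_le_mul h1 h2 (abs_nonneg _) (by norm_num)) h3 (abs_nonneg _)
            (by norm_num)
      _ = 1 := by norm_num
  have hmm : ∀ (L : ℝ → ℝ → ℝ), Measurable (Function.uncurry L) →
      Measurable (Function.uncurry fun s r => L s r * w s * v' r) := fun L hL =>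
    (hL.mul (hw.comp measurable_fst)).mul (hv'.comp measurable_snd)
  have i1 := tri_int ht _ (hmm K hK) (hprod K hKb)
  have i2 := tri_int ht _ (hmm K' hK') (hprod K' hKb')
  have e1 : (∫ s in (0 : ℝ)..t, v s) - ∫ s in (0 : ℝ)..t, v' s =
      γ * ((∫ s in (0 : ℝ)..t, ∫ r in (0 : ℝ)..s, K' s r * w s * v' r) -
        ∫ s in (0 : ℝ)..t, ∫ r in (0 : ℝ)..s, K s r * w s * v' r) := by
    linarith
  rw [e1, mul_assoc, ← intervalIntegral.integral_sub i2 i1,
    ← intervalIntegral.integral_const_mul]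
  refine mul_le_mul_of_nonneg_left ?_ hγ.le
  have hsec : ∀ (L : ℝ → ℝ → ℝ), Measurable (Function.uncurry L) → ∀ s, Measurable (L s) :=
    fun L hL s => hL.comp measurable_prodMk_left
  refine intervalIntegral.integral_mono_on ht.le ?_ ?_ ?_
  · have hm : Measurable (Function.uncurry fun s r => K' s r - K s r) := hK'.sub hK
    have := tri_int (C := 1) ht (fun s r => K' s r - K s r) hm (fun r s h1 h2 h3 => by
      rw [abs_of_nonneg (sub_nonneg.2 (hKK r s h1 h2 h3))]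
      linarith [hK0 r s h1 h2 h3, hK1 r s h1 h2 h3])
    exact this.const_mul _
  · exact i2.sub i1
  · intro s hs
    have j1 : IntervalIntegrable (fun r => K' s r * w s * v' r) volume 0 s :=
      intInt_of_bdd (C := 1) hs.1 _ (hsec _ (hmm K' hK') s)
        (fun r hr => hprod K' hKb' r s hr.1 hr.2 hs.2)
    have j2 : IntervalIntegrable (fun r => K s r * w s * v' r) volume 0 s :=
      intInt_of_bdd (C := 1) hs.1 _ (hsec _ (hmm K hK) s)
        (fun r hr => hprod K hKb r s hr.1 hr.2 hs.2)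
    rw [← intervalIntegral.integral_sub j1 j2, ← intervalIntegral.integral_const_mul]
    refine intervalIntegral.integral_mono_on hs.1 ?_ (j1.sub j2) ?_
    · refine intInt_of_bdd (C := b ^ 2) hs.1 _
        (((hsec K' hK' s).sub (hsec K hK s)).const_mul _) fun r hr => ?_
      have h0 := hKK r s hr.1 hr.2 hs.2
      have h1 := hK0 r s hr.1 hr.2 hs.2
      have h2 := hK1 r s hr.1 hr.2 hs.2
      rw [abs_of_nonneg (mul_nonneg (sq_nonneg _) (sub_nonneg.2 h0))]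
      refine mul_le_of_le_one_right (sq_nonneg _) (by linarith)
    · intro r hr
      have h0 := hKK r s hr.1 hr.2 hs.2
      have h1 := (hw1 s hs).1
      have h2 := (hv1' r ⟨hr.1, hr.2.trans hs.2⟩).1
      have h3 : b ^ 2 ≤ w s * v' r := by
        rw [sq]
        exact mul_le_mul h1 h2 hb (hb.trans h1)
      calc b ^ 2 * (K' s r - K s r) ≤ (w s * v' r) * (K' s r - K s r) :=
            mul_le_mul_of_nonneg_right h3 (sub_nonneg.2 h0)
        _ = K' s r * w s * v' r - K s r * w s * v' r := by ring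

/-- the statement of module D -/
def VdenSpec : Prop := ∀ {d : ℕ} [NeZero d] {ρ γ t : ℝ}, 0 < ρ → 0 < γ → 0 < t →
    ∀ (x : ℝ → Fin d → ℤ), Measurable x →
    Measurable (vden ρ γ t x) ∧
    (∀ s ∈ Set.Icc 0 t, vden ρ γ t x s ≤ 1 ∧
      Real.exp (-(γ * ∫ r in (0:ℝ)..s, hk d (ρ * (s - r)) (x s - x r))) ≤ vden ρ γ t x s ∧
      vden ρ γ t x s =
        1 - γ * ∫ r in (0:ℝ)..s, hk d (ρ * (s - r)) (x s - x r) * vden ρ γ t x r) ∧
    Nt ρ γ t x = γ * ∫ s in (0:ℝ)..t, vden ρ γ t x s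

theorem Nt_compare_of (D : VdenSpec)
    (hnn : ∀ {d : ℕ} {l : ℝ} (_ : 0 ≤ l) (z : Fin d → ℤ), 0 ≤ hk d l z)
    (hle : ∀ {d : ℕ} [NeZero d] {l : ℝ} (_ : 0 ≤ l) (z : Fin d → ℤ), hk d l z ≤ 1)
    (hng : ∀ {d : ℕ} (l : ℝ) (z : Fin d → ℤ), hk d l (-z) = hk d l z)
    (hme : ∀ d : ℕ, Measurable (fun p : ℝ × (Fin d → ℤ) => hk d p.1 p.2))
    {d : ℕ} [NeZero d] {ρ γ t G : ℝ} (hρ : 0 < ρ) (hγ : 0 < γ) (ht : 0 < t)
    (hG : ∀ (z : ℝ → Fin d → ℤ), Measurable z →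
      ∀ s : ℝ, 0 ≤ s → ∫ r in (0:ℝ)..s, hk d (ρ * (s - r)) (z r) ≤ G)
    (x x' : ℝ → Fin d → ℤ) (hx : Measurable x) (hx' : Measurable x')
    (hK : ∀ r s, 0 ≤ r → r ≤ s → s ≤ t →
      hk d (ρ * (s - r)) (x s - x r) ≤ hk d (ρ * (s - r)) (x' s - x' r)) :
    γ ^ 2 * Real.exp (-(2 * γ * G)) *
      (∫ s in (0:ℝ)..t, ∫ r in (0:ℝ)..s,
        (hk d (ρ * (s - r)) (x' s - x' r) - hk d (ρ * (s - r)) (x s - x r))) ≤
      Nt ρ γ t x - Nt ρ γ t x' := by
  have hxR : Measurable (fun u : ℝ => x (t - u)) := hx.comp (measurable_const.sub measurable_id)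
  obtain ⟨m1, s1, n1⟩ := D hρ hγ ht x hx
  obtain ⟨m2, s2, n2⟩ := D hρ hγ ht x' hx'
  obtain ⟨m3, s3, n3⟩ := D hρ hγ ht (fun u : ℝ => x (t - u)) hxR
  have hKm : ∀ y : ℝ → Fin d → ℤ, Measurable y →
      Measurable (Function.uncurry fun s r => hk d (ρ * (s - r)) (y s - y r)) := by
    intro y hy
    have h : Measurable (fun p : ℝ × ℝ => (ρ * (p.1 - p.2), y p.1 - y p.2)) :=
      ((measurable_fst.sub measurable_snd).const_mul ρ).prodMk
        ((hy.comp measurable_fst).sub (hy.comp measurable_snd))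
    exact (hme d).comp h
  have low : ∀ (y : ℝ → Fin d → ℤ), Measurable y → ∀ s ∈ Set.Icc 0 t,
      Real.exp (-(γ * ∫ r in (0:ℝ)..s, hk d (ρ * (s - r)) (y s - y r))) ≤ vden ρ γ t y s →
      Real.exp (-(γ * G)) ≤ vden ρ γ t y s := by
    intro y hy s hs h
    refine le_trans (Real.exp_le_exp.2 (neg_le_neg (mul_le_mul_of_nonneg_left ?_ hγ.le))) h
    exact hG (fun r => y s - y r) (measurable_const.sub hy) s hs.1
  have hW : ∀ r ∈ Set.Icc 0 t, vden ρ γ t (fun u : ℝ => x (t - u)) (t - r) =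
      1 - γ * ∫ s in r..t, hk d (ρ * (s - r)) (x s - x r) *
        vden ρ γ t (fun u : ℝ => x (t - u)) (t - s) := by
    intro r hr
    have hr' : t - r ∈ Set.Icc 0 t := ⟨by linarith [hr.2], by linarith [hr.1]⟩
    rw [(s3 (t - r) hr').2.2]
    congr 2
    have e := intervalIntegral.integral_comp_sub_left (a := 0) (b := t - r)
      (fun s => hk d (ρ * (s - r)) (x s - x r) * vden ρ γ t (fun u : ℝ => x (t - u)) (t - s)) t
    rw [sub_zero, sub_sub_cancel] at e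
    rw [← e]
    refine intervalIntegral.integral_congr fun u _ => ?_
    simp only [sub_sub_cancel]
    congr 1
    rw [← hng, neg_sub]
    congr 2
    ring
  have h := core (γ := γ) (b := Real.exp (-(γ * G))) ht hγ (Real.exp_pos _).le
    (fun s r => hk d (ρ * (s - r)) (x s - x r)) (fun s r => hk d (ρ * (s - r)) (x' s - x' r))
    (vden ρ γ t x) (vden ρ γ t x') (fun s => vden ρ γ t (fun u : ℝ => x (t - u)) (t - s))
    (hKm x hx) (hKm x' hx')
    (fun r s _ hrs _ => hnn (mul_nonneg hρ.le (sub_nonneg.2 hrs)) _)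
    (fun r s _ hrs _ => hle (mul_nonneg hρ.le (sub_nonneg.2 hrs)) _)
    hK m1 m2 (m3.comp (measurable_const.sub measurable_id))
    (fun s hs => ⟨low x hx s hs (s1 s hs).2.1, (s1 s hs).1⟩)
    (fun s hs => ⟨low x' hx' s hs (s2 s hs).2.1, (s2 s hs).1⟩)
    (fun s hs => by
      have hs' : t - s ∈ Set.Icc 0 t := ⟨by linarith [hs.2], by linarith [hs.1]⟩
      exact ⟨low _ hxR _ hs' (s3 _ hs').2.1, (s3 _ hs').1⟩)
    (fun s hs => (s1 s hs).2.2) (fun s hs => (s2 s hs).2.2) hW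
  rw [n1, n2]
  have e : Real.exp (-(2 * γ * G)) = Real.exp (-(γ * G)) ^ 2 := by
    rw [← Real.exp_nat_mul]
    congr 1
    push_cast
    ring
  rw [e]
  calc γ ^ 2 * Real.exp (-(γ * G)) ^ 2 * (∫ s in (0:ℝ)..t, ∫ r in (0:ℝ)..s,
        (hk d (ρ * (s - r)) (x' s - x' r) - hk d (ρ * (s - r)) (x s - x r)))
      = γ * (γ * Real.exp (-(γ * G)) ^ 2 * (∫ s in (0:ℝ)..t, ∫ r in (0:ℝ)..s,
        (hk d (ρ * (s - r)) (x' s - x' r) - hk d (ρ * (s - r)) (x s - x r)))) := by ring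
    _ ≤ γ * ((∫ s in (0 : ℝ)..t, vden ρ γ t x s) - ∫ s in (0 : ℝ)..t, vden ρ γ t x' s) :=
        mul_le_mul_of_nonneg_left h hγ.le
    _ = _ := by ring

end E

end Pool.Agent.H99.Trap
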